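import Mathlib

set_option autoImplicit false

namespace Pool.Agent.Results.MP_f6a359_co.Counter
open Finset

/-- Total domination number. -/
noncomputable def gammaT {V : Type} (G : SimpleGraph V) : ℕ :=
  sInf {k | ∃ S : Finset V, S.card = k ∧ ∀ v, ∃ u ∈ S, G.Adj v u}

/-- Path covering number. -/
noncomputable def pathCover {V : Type} (G : SimpleGraph V) : ℕ :=
  sInf {k | ∃ P : Fin k → Σ u v : V, G.Path u v,
    (∀ i j, i ≠ j → List.Disjoint (P i).2.2.1.support (P j).2.2.1.support) ∧
      ∀ v, ∃ i, v ∈ (P i).2.2.1.support}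

abbrev V : Type := Option (Fin 4 × Fin 9)

def adj : V → V → Bool
  | none, none => false
  | none, some b => decide (b.2.1 < 2)
  | some a, none => decide (a.2.1 < 2)
  | some a, some b => decide (a.1 = b.1 ∧ a.2 ≠ b.2 ∧ (2 ≤ a.2.1 ∨ 2 ≤ b.2.1))

def G : SimpleGraph V where
  Adj u v := adj u v = true
  symm := ⟨by decide +kernel⟩
  loopless := ⟨by decide +kernel⟩

instance : DecidableRel G.Adj := fun u v => inferInstanceAs (Decidable (adj u v = true))

theorem blob (l : List V) (h : l.IsChain G.Adj) (hn : none ∉ l) :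
    ∃ b : Fin 4, ∀ a, some a ∈ l → a.1 = b := by
  induction l with
  | nil => exact ⟨0, by simp⟩
  | cons u l ih =>
    rcases u with _ | u
    · simp at hn
    refine ⟨u.1, ?_⟩
    rcases l with _ | ⟨w, l⟩
    · simp +contextual
    rcases w with _ | w
    · simp at hn
    obtain ⟨h1, h2⟩ := List.isChain_cons_cons.1 h
    obtain ⟨b, hb⟩ := ih h2 fun h => hn (List.mem_cons_of_mem _ h)
    have h3 : u.1 = w.1 := (of_decide_eq_true h1).1
    intro a ha
    rcases List.mem_cons.1 ha with h4 | h4
    · rw [Option.some.inj h4]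
    · rw [h3, hb a h4, hb w (List.mem_cons_self ..)]

theorem blob2 (l : List V) (h : l.IsChain G.Adj) (hd : l.Nodup) :
    ∃ b c : Fin 4, (none ∉ l → c = b) ∧ ∀ a, some a ∈ l → a.1 = b ∨ a.1 = c := by
  by_cases hn : none ∈ l
  · obtain ⟨l1, l2, rfl⟩ := List.append_of_mem hn
    rw [List.nodup_append] at hd
    obtain ⟨b, hb⟩ := blob l1 h.left_of_append fun h => hd.2.2 _ h _ (List.mem_cons_self ..) rfl
    obtain ⟨c, hc⟩ := blob l2 h.right_of_append.tail (List.nodup_cons.1 hd.2.1).1
    refine ⟨b, c, fun h => absurd hn h, fun a ha => ?_⟩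
    rcases List.mem_append.1 ha with h | h
    · exact Or.inl (hb a h)
    · exact Or.inr (hc a (by simpa using h))
  · obtain ⟨b, hb⟩ := blob l h hn
    exact ⟨b, b, fun _ => rfl, fun a ha => Or.inl (hb a ha)⟩

theorem three : 3 ≤ pathCover G := by
  have hne : {k | ∃ P : Fin k → Σ u v : V, G.Path u v,
      (∀ i j, i ≠ j → List.Disjoint (P i).2.2.1.support (P j).2.2.1.support) ∧
        ∀ v, ∃ i, v ∈ (P i).2.2.1.support}.Nonempty := by
    let e := Fintype.equivFin V
    refine ⟨_, fun i => ⟨e.symm i, e.symm i, SimpleGraph.Path.nil⟩, fun i j hij => ?_,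
      fun v => ⟨e v, by simp⟩⟩
    simpa using hij.symm
  obtain ⟨P, h1, h2⟩ := Nat.sInf_mem hne
  choose b c hc hb using fun i => blob2 (P i).2.2.1.support
    (SimpleGraph.Walk.isChain_adj_support _) (P i).2.2.2.support_nodup
  obtain ⟨i0, hi0⟩ := h2 none
  have : (univ : Finset (Fin 4)) ⊆ insert (c i0) (univ.image b) := by
    intro x _
    obtain ⟨i, hi⟩ := h2 (some (x, 0))
    rcases hb i _ hi with h | h
    · exact mem_insert_of_mem (mem_image.2 ⟨i, mem_univ _, h.symm⟩)
    · by_cases hi' : i = i0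
      · subst hi'; exact mem_insert.2 (Or.inl h)
      · exact mem_insert_of_mem (mem_image.2 ⟨i, mem_univ _,
          ((hc i fun h' => h1 i i0 hi' h' hi0).symm.trans h.symm)⟩)
  have h3 := (card_le_card this).trans ((card_insert_le _ _).trans
    (Nat.add_le_add_right card_image_le 1))
  simp only [card_univ, Fintype.card_fin] at h3
  exact Nat.le_of_succ_le_succ h3

theorem five : gammaT G ≤ 5 :=
  Nat.sInf_le ⟨{none, some (0, 0), some (1, 0), some (2, 0), some (3, 0)}, by decide,
    by decide +kernel⟩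

theorem result : ∃ (W : Type) (_ : Fintype W) (H : SimpleGraph W) (_ : DecidableRel H.Adj),
    H.IsRegularOfDegree 8 ∧ H.Connected ∧ gammaT H < 2 * pathCover H := by
  refine ⟨V, inferInstance, G, inferInstance, by unfold SimpleGraph.IsRegularOfDegree; decide +kernel,
    ?_, by have := three; have := five; omega⟩
  refine (SimpleGraph.connected_iff_exists_forall_reachable _).2 ⟨none, fun v => ?_⟩
  have : ∀ v : V, v = none ∨ G.Adj none v ∨ ∃ u, G.Adj none u ∧ G.Adj u v := by decide +kernel
  rcases this v with rfl | h | ⟨u, h1, h2⟩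
  · rfl
  · exact h.reachable
  · exact h1.reachable.trans h2.reachable

end Pool.Agent.Results.MP_f6a359_co.Counter
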